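import Pool.Agent.R920.WP.Sec
import Pool.Agent.R920.WQ.Tan

/-!
# Averages of forms over finite groups of block diagonal matrices
-/

set_option autoImplicit false

namespace Pool.Agent.R920.WN

open MvPolynomial Pool.Agent.R920.WC Pool.Agent.R920.WQ Pool.Agent.R920.WP

variable {G : Type} [Group G] {ι S : Type} [Fintype ι] [DecidableEq ι] [Fintype S] [DecidableEq S]

/-- linear substitution -/
noncomputable def subst (M : Matrix ι ι ℂ) : MvPolynomial ι ℂ →ₐ[ℂ] MvPolynomial ι ℂ :=
  aeval (fun x => ∑ y, C (M x y) * X y)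

omit [DecidableEq ι] in
theorem eval_subst (M : Matrix ι ι ℂ) (v : ι → ℂ) (s : MvPolynomial ι ℂ) :
    eval v (subst M s) = eval (M.mulVec v) s := by
  have h1 : ((aeval v : MvPolynomial ι ℂ →ₐ[ℂ] ℂ).comp (subst M)) = aeval (M.mulVec v) := by
    apply MvPolynomial.algHom_ext
    intro j
    simp [subst, Matrix.mulVec, dotProduct]
  have h2 := congrArg (fun φ => φ s) (congrArg DFunLike.coe h1)
  simpa [coe_aeval_eq_eval] using h2

omit [DecidableEq ι] [Fintype S] in
theorem subst_hom {b : ι → S} {M : Matrix ι ι ℂ} (hM : ∀ x y, b x ≠ b y → M x y = 0) {m : S → ℕ}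
    {s : MvPolynomial ι ℂ} (hs : MHom b m s) : MHom b m (subst M s) := by
  intro j
  rw [subst, aeval_def, eval₂_eq']
  refine (weightedHomogeneousSubmodule ℂ (ind b j) _).sum_mem fun n hn => ?_
  rw [mem_weightedHomogeneousSubmodule]
  have hw := hs j (mem_support_iff.mp hn)
  rw [weight_eq] at hw
  have h1 : IsWeightedHomogeneous (ind b j)
      (∏ x, (∑ y, C (M x y) * X y : MvPolynomial ι ℂ) ^ n x) (∑ x, n x • ind b j x) := by
    refine IsWeightedHomogeneous.prod _ _ _ fun x _ => ?_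
    refine IsWeightedHomogeneous.pow ?_ _
    refine (weightedHomogeneousSubmodule ℂ (ind b j) _).sum_mem fun y _ => ?_
    rw [mem_weightedHomogeneousSubmodule]
    by_cases hxy : b x = b y
    · have h2 := (isWeightedHomogeneous_C (ind b j) (M x y)).mul
        (isWeightedHomogeneous_X ℂ (ind b j) y)
      rw [zero_add] at h2
      have h3 : ind b j x = ind b j y := by simp [ind, hxy]
      rw [h3]
      exact h2
    · rw [hM x y hxy, map_zero, zero_mul]
      exact isWeightedHomogeneous_zero ℂ _ _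
  simp only [smul_eq_mul] at h1
  rw [hw] at h1
  have h3 := (isWeightedHomogeneous_C (ind b j) (coeff n s)).mul h1
  rwa [zero_add] at h3

omit [DecidableEq ι] in
theorem dir_add (v u : ι → ℂ) (p q : MvPolynomial ι ℂ) :
    dir v u (p + q) = dir v u p + dir v u q := by
  unfold dir
  rw [← Finset.sum_add_distrib]
  refine Finset.sum_congr rfl fun i _ => ?_
  rw [map_add, map_add, add_mul]

omit [DecidableEq ι] in
theorem dir_sum {κ : Type} (T : Finset κ) (v u : ι → ℂ) (p : κ → MvPolynomial ι ℂ) :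
    dir v u (∑ a ∈ T, p a) = ∑ a ∈ T, dir v u (p a) := by
  classical
  induction T using Finset.induction_on with
  | empty => rw [Finset.sum_empty, Finset.sum_empty, ← map_zero C, dir_C]
  | insert a T ha ih => rw [Finset.sum_insert ha, Finset.sum_insert ha, dir_add, ih]

theorem dir_subst (M : Matrix ι ι ℂ) (v u : ι → ℂ) (s : MvPolynomial ι ℂ) :
    dir v u (subst M s) = dir (M.mulVec v) (M.mulVec u) s := by
  induction s using MvPolynomial.induction_on with
  | C a =>
    have h1 : subst M (C a) = C a := by simp [subst]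
    rw [h1, dir_C, dir_C]
  | add p q hp hq => rw [map_add, dir_add, dir_add, hp, hq]
  | mul_X p x hp =>
    have h1 : dir v u (subst M (X x)) = M.mulVec u x := by
      rw [subst, aeval_X, dir_sum]
      simp only [dir_mul, dir_C, dir_X, eval_C, mul_zero, add_zero]
      rfl
    rw [map_mul, dir_mul, dir_mul, hp, eval_subst, eval_subst, h1, dir_X]

/-- the average of a polynomial -/
noncomputable def avg [Fintype G] (ρ : G →* Matrix ι ι ℂ) (χ : G →* ℂˣ) (s : MvPolynomial ι ℂ) :
    MvPolynomial ι ℂ := ∑ g, C (((χ g)⁻¹ : ℂˣ) : ℂ) * subst (ρ g) s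

theorem eval_avg [Fintype G] (ρ : G →* Matrix ι ι ℂ) (χ : G →* ℂˣ) (s : MvPolynomial ι ℂ)
    (v : ι → ℂ) :
    eval v (avg ρ χ s) = ∑ g, (((χ g)⁻¹ : ℂˣ) : ℂ) * eval ((ρ g).mulVec v) s := by
  rw [avg, map_sum]
  refine Finset.sum_congr rfl fun g _ => ?_
  rw [map_mul, eval_C, eval_subst]

theorem dir_avg [Fintype G] (ρ : G →* Matrix ι ι ℂ) (χ : G →* ℂˣ) (s : MvPolynomial ι ℂ)
    (v u : ι → ℂ) : dir v u (avg ρ χ s) =
      ∑ g, (((χ g)⁻¹ : ℂˣ) : ℂ) * dir ((ρ g).mulVec v) ((ρ g).mulVec u) s := by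
  rw [avg, dir_sum]
  refine Finset.sum_congr rfl fun g _ => ?_
  rw [dir_mul, dir_C, mul_zero, add_zero, eval_C, dir_subst]

theorem avg_hom [Fintype G] {b : ι → S} {ρ : G →* Matrix ι ι ℂ}
    (hρ : ∀ g x y, b x ≠ b y → ρ g x y = 0) (χ : G →* ℂˣ) {m : S → ℕ} {s : MvPolynomial ι ℂ}
    (hs : MHom b m s) : MHom b m (avg ρ χ s) := by
  intro j
  refine (weightedHomogeneousSubmodule ℂ (ind b j) _).sum_mem fun g _ => ?_
  rw [mem_weightedHomogeneousSubmodule]
  have h3 := (isWeightedHomogeneous_C (ind b j) (((χ g)⁻¹ : ℂˣ) : ℂ)).mul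
    (subst_hom (hρ g) hs j)
  rwa [zero_add] at h3

theorem avg_inv [Fintype G] (ρ : G →* Matrix ι ι ℂ) (χ : G →* ℂˣ) (s : MvPolynomial ι ℂ)
    (h : G) (v : ι → ℂ) :
    eval ((ρ h).mulVec v) (avg ρ χ s) = χ h * eval v (avg ρ χ s) := by
  rw [eval_avg, eval_avg, Finset.mul_sum]
  rw [← Equiv.sum_comp (Equiv.mulRight h)
    (fun g => (χ h : ℂ) * ((((χ g)⁻¹ : ℂˣ) : ℂ) * eval ((ρ g).mulVec v) s))]
  refine Finset.sum_congr rfl fun g _ => ?_
  rw [Equiv.coe_mulRight, Matrix.mulVec_mulVec, ← map_mul, ← mul_assoc, map_mul χ, mul_inv,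
    ← Units.val_mul]
  congr 2
  rw [mul_comm (χ g)⁻¹, mul_inv_cancel_left]

omit [DecidableEq ι] in
theorem MHom.mul {b : ι → S} {m m' : S → ℕ} {s s' : MvPolynomial ι ℂ} (h : MHom b m s)
    (h' : MHom b m' s') : MHom b (m + m') (s * s') := fun j => (h j).mul (h' j)

/-- a linear form which vanishes at `w` and not at `z` -/
theorem exists_linear {b : ι → S} {z w : ι → ℂ} (hz : Rel b z)
    (hw : ¬ ∃ t : S → ℂ, ∀ x, w x = t (b x) * z x) :
    ∃ (x : ι) (l : MvPolynomial ι ℂ), MHom b (fun j => ind b j x) l ∧ eval z l ≠ 0 ∧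
      eval w l = 0 := by
  choose p hp hzp using hz
  obtain ⟨x, hx⟩ : ∃ x, w x ≠ w (p (b x)) / z (p (b x)) * z x := by
    by_contra hcon
    push Not at hcon
    exact hw ⟨fun j => w (p j) / z (p j), hcon⟩
  refine ⟨x, C (w (p (b x))) * X x - C (w x) * X (p (b x)), fun j => ?_, ?_, ?_⟩
  · refine (weightedHomogeneousSubmodule ℂ (ind b j) _).sub_mem ?_ ?_
    · rw [mem_weightedHomogeneousSubmodule]
      have h2 := (isWeightedHomogeneous_C (ind b j) (w (p (b x)))).mul
        (isWeightedHomogeneous_X ℂ (ind b j) x)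
      rwa [zero_add] at h2
    · rw [mem_weightedHomogeneousSubmodule]
      have h2 := (isWeightedHomogeneous_C (ind b j) (w x)).mul
        (isWeightedHomogeneous_X ℂ (ind b j) (p (b x)))
      rw [zero_add] at h2
      have h3 : ind b j x = ind b j (p (b x)) := by simp [ind, hp]
      beta_reduce
      rw [h3]
      exact h2
  · simp only [map_sub, map_mul, eval_C, eval_X]
    intro h
    apply hx
    have h1 := hzp (b x)
    field_simp
    linear_combination -h
  · simp only [map_sub, map_mul, eval_C, eval_X]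
    ring

/-- a form which vanishes at given points -/
theorem exists_form {κ : Type} {b : ι → S} {z : ι → ℂ} (hz : Rel b z) (T : Finset κ)
    (w : κ → ι → ℂ) (hw : ∀ a ∈ T, ¬ ∃ t : S → ℂ, ∀ x, w a x = t (b x) * z x) :
    ∃ (m : S → ℕ) (q : MvPolynomial ι ℂ), (∀ j, m j ≤ T.card) ∧ MHom b m q ∧ eval z q ≠ 0 ∧
      ∀ a ∈ T, eval (w a) q = 0 := by
  classical
  induction T using Finset.induction_on with
  | empty =>
    refine ⟨0, 1, fun j => le_rfl, fun j => ?_, by simp, by simp⟩
    exact isWeightedHomogeneous_one ℂ _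
  | insert a T ha ih =>
    obtain ⟨m, q, h1, h2, h3, h4⟩ := ih fun c hc => hw c (Finset.mem_insert_of_mem hc)
    obtain ⟨x, l, k1, k2, k3⟩ := exists_linear hz (hw a (Finset.mem_insert_self _ _))
    refine ⟨(fun j => ind b j x) + m, l * q, fun j => ?_, MHom.mul k1 h2, ?_, ?_⟩
    · rw [Finset.card_insert_of_notMem ha, Pi.add_apply]
      have h5 : ind b j x ≤ 1 := by
        unfold ind
        split_ifs <;> omega
      have h6 := h1 j
      omega
    · rw [map_mul]
      exact mul_ne_zero k2 h3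
    · intro c hc
      rw [map_mul]
      rcases Finset.mem_insert.1 hc with rfl | hc
      · rw [k3, zero_mul]
      · rw [h4 c hc, mul_zero]

/-- a form which does not vanish at a given point -/
theorem exists_fill {b : ι → S} {z : ι → ℂ} (hz : Rel b z) (m : S → ℕ) :
    ∃ q : MvPolynomial ι ℂ, MHom b m q ∧ eval z q ≠ 0 := by
  choose p hp hzp using hz
  refine ⟨∏ j, X (p j) ^ m j, fun j => ?_, ?_⟩
  · have h1 : IsWeightedHomogeneous (ind b j)
        (∏ j', (X (p j') : MvPolynomial ι ℂ) ^ m j') (∑ j', m j' • ind b j (p j')) :=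
      IsWeightedHomogeneous.prod _ _ _ fun a _ => (isWeightedHomogeneous_X ℂ _ _).pow _
    convert h1 using 1
    simp [ind, hp]
  · simp only [map_prod, map_pow, eval_X]
    exact Finset.prod_ne_zero_iff.2 fun j _ => pow_ne_zero _ (hzp j)

end Pool.Agent.R920.WN
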