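import Pool.Agent.R920.WN.Avg

/-!
# Sections on quotients by finite groups of block diagonal matrices
-/

set_option autoImplicit false

namespace Pool.Agent.R920.WN

open MvPolynomial Pool.Agent.R920.WC Pool.Agent.R920.WQ Pool.Agent.R920.WP

variable {G : Type} [Group G] [Fintype G] {ι S : Type} [Fintype ι] [DecidableEq ι] [Fintype S]
  [DecidableEq S]

/-- forms of multidegree `e` on which `G` acts by the character `χ` -/
def Sec (b : ι → S) (ρ : G →* Matrix ι ι ℂ) (e : S → ℕ) (χ : G →* ℂˣ) (s : MvPolynomial ι ℂ) :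
    Prop :=
  MHom b e s ∧ ∀ (g : G) (x : ι → ℂ), eval ((ρ g).mulVec x) s = χ g * eval x s

/-- `G` acts freely at `v` -/
def FreeAt (b : ι → S) (ρ : G →* Matrix ι ι ℂ) (v : ι → ℂ) : Prop :=
  ∀ (g : G) (t : S → ℂ), (∀ x, (ρ g).mulVec v x = t (b x) * v x) → g = 1

variable {b : ι → S} {ρ : G →* Matrix ι ι ℂ}

theorem avg_sec (hρ : ∀ g x y, b x ≠ b y → ρ g x y = 0) (χ : G →* ℂˣ) {e : S → ℕ}
    {s : MvPolynomial ι ℂ} (hs : MHom b e s) : Sec b ρ e χ (avg ρ χ s) :=
  ⟨avg_hom hρ χ hs, fun g x => avg_inv ρ χ s g x⟩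

theorem eval_avg_eq (χ : G →* ℂˣ) {q : MvPolynomial ι ℂ} {v : ι → ℂ}
    (h : ∀ g ≠ 1, eval ((ρ g).mulVec v) q = 0) : eval v (avg ρ χ q) = eval v q := by
  rw [eval_avg, Finset.sum_eq_single 1]
  · rw [map_one, map_one, inv_one, Units.val_one, one_mul, Matrix.one_mulVec]
  · intro g _ hg
    rw [h g hg, mul_zero]
  · intro h1
    exact absurd (Finset.mem_univ _) h1

theorem dir_avg_eq (χ : G →* ℂˣ) {q : MvPolynomial ι ℂ} {v u : ι → ℂ}
    (h : ∀ g ≠ 1, dir ((ρ g).mulVec v) ((ρ g).mulVec u) q = 0) :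
    dir v u (avg ρ χ q) = dir v u q := by
  rw [dir_avg, Finset.sum_eq_single 1]
  · rw [map_one, map_one, inv_one, Units.val_one, one_mul, Matrix.one_mulVec, Matrix.one_mulVec]
  · intro g _ hg
    rw [h g hg, mul_zero]
  · intro h1
    exact absurd (Finset.mem_univ _) h1

/-- a form which vanishes in the other points of an orbit -/
theorem exists_orbit {z : ι → ℂ} (hz : Rel b z) (hfz : FreeAt b ρ z) :
    ∃ (m : S → ℕ) (q : MvPolynomial ι ℂ), (∀ j, m j + 1 ≤ Fintype.card G) ∧ MHom b m q ∧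
      eval z q ≠ 0 ∧ ∀ g ≠ 1, eval ((ρ g).mulVec z) q = 0 := by
  classical
  obtain ⟨m, q, h1, h2, h3, h4⟩ := exists_form hz (Finset.univ.erase (1 : G))
    (fun g => (ρ g).mulVec z) (by
      rintro g hg ⟨t, ht⟩
      exact Finset.ne_of_mem_erase hg (hfz g t ht))
  refine ⟨m, q, fun j => ?_, h2, h3, fun g hg => h4 g (Finset.mem_erase.2 ⟨hg, Finset.mem_univ _⟩)⟩
  have h5 := h1 j
  rw [Finset.card_erase_of_mem (Finset.mem_univ _), Finset.card_univ] at h5
  have h6 := Fintype.card_pos (α := G)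
  omega

theorem bpf (hρ : ∀ g x y, b x ≠ b y → ρ g x y = 0) {e : S → ℕ}
    (he : ∀ j, Fintype.card G ≤ e j + 1) (χ : G →* ℂˣ) {v : ι → ℂ} (hv : Rel b v)
    (hfv : FreeAt b ρ v) : ∃ s, Sec b ρ e χ s ∧ eval v s ≠ 0 := by
  obtain ⟨m, q, h1, h2, h3, h4⟩ := exists_orbit hv hfv
  obtain ⟨r, k1, k2⟩ := exists_fill hv (fun j => e j - m j)
  have hm : e = m + fun j => e j - m j := by
    funext j
    have h5 := h1 j
    have h6 := he j
    simp only [Pi.add_apply]
    omega
  refine ⟨avg ρ χ (q * r), avg_sec hρ χ ?_, ?_⟩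
  · rw [hm]
    exact MHom.mul h2 k1
  · rw [eval_avg_eq, map_mul]
    · exact mul_ne_zero h3 k2
    · intro g hg
      rw [map_mul, h4 g hg, zero_mul]

theorem pts (hρ : ∀ g x y, b x ≠ b y → ρ g x y = 0) {e : S → ℕ}
    (he : ∀ j, 2 * Fintype.card G ≤ e j + 1) (χ : G →* ℂˣ) {v w : ι → ℂ} (hw : Rel b w)
    (hfw : FreeAt b ρ w)
    (hne : ¬ ∃ (g : G) (t : S → ℂ), ∀ x, (ρ g).mulVec v x = t (b x) * w x) :
    ∃ s, Sec b ρ e χ s ∧ eval v s = 0 ∧ eval w s ≠ 0 := by
  classical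
  obtain ⟨m, q, h1, h2, h3, h4⟩ := exists_orbit hw hfw
  obtain ⟨m', q', h1', h2', h3', h4'⟩ := exists_form hw (Finset.univ : Finset G)
    (fun g => (ρ g).mulVec v) (by
      rintro g - ⟨t, ht⟩
      exact hne ⟨g, t, ht⟩)
  obtain ⟨r, k1, k2⟩ := exists_fill hw (fun j => e j - (m j + m' j))
  have hm : e = (m + m') + fun j => e j - (m j + m' j) := by
    funext j
    have h5 := h1 j
    have h6 := h1' j
    have h7 := he j
    rw [Finset.card_univ] at h6
    simp only [Pi.add_apply]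
    omega
  refine ⟨avg ρ χ (q * q' * r), avg_sec hρ χ ?_, ?_, ?_⟩
  · rw [hm]
    exact MHom.mul (MHom.mul h2 h2') k1
  · rw [eval_avg]
    refine Finset.sum_eq_zero fun g _ => ?_
    rw [map_mul, map_mul, h4' g (Finset.mem_univ _), mul_zero, zero_mul, mul_zero]
  · rw [eval_avg_eq, map_mul, map_mul]
    · exact mul_ne_zero (mul_ne_zero h3 h3') k2
    · intro g hg
      rw [map_mul, map_mul, h4 g hg, zero_mul, zero_mul]

theorem tan (hρ : ∀ g x y, b x ≠ b y → ρ g x y = 0) {e : S → ℕ}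
    (he : ∀ j, 2 * Fintype.card G ≤ e j + 1) (χ : G →* ℂˣ) {v u : ι → ℂ} (hv : Rel b v)
    (hfv : FreeAt b ρ v) (hne : ¬ ∃ τ : S → ℂ, ∀ x, u x = τ (b x) * v x) :
    ∃ s, Sec b ρ e χ s ∧ eval v s = 0 ∧ dir v u s ≠ 0 := by
  classical
  obtain ⟨m, q, h1, h2, h3, h4⟩ := exists_orbit hv hfv
  -- a linear form
  obtain ⟨x, l, l1, l2, l3⟩ : ∃ (x : ι) (l : MvPolynomial ι ℂ), MHom b (fun j => ind b j x) l ∧
      eval v l = 0 ∧ dir v u l ≠ 0 := by
    choose p hp hvp using hv
    obtain ⟨x, hx⟩ : ∃ x, u x ≠ u (p (b x)) / v (p (b x)) * v x := by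
      by_contra hcon
      push Not at hcon
      exact hne ⟨fun j => u (p j) / v (p j), hcon⟩
    refine ⟨x, C (v (p (b x))) * X x - C (v x) * X (p (b x)), fun j => ?_, ?_, ?_⟩
    · refine (weightedHomogeneousSubmodule ℂ (ind b j) _).sub_mem ?_ ?_
      · rw [mem_weightedHomogeneousSubmodule]
        have h2 := (isWeightedHomogeneous_C (ind b j) (v (p (b x)))).mul
          (isWeightedHomogeneous_X ℂ (ind b j) x)
        rwa [zero_add] at h2
      · rw [mem_weightedHomogeneousSubmodule]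
        have h2 := (isWeightedHomogeneous_C (ind b j) (v x)).mul
          (isWeightedHomogeneous_X ℂ (ind b j) (p (b x)))
        rw [zero_add] at h2
        have h3 : ind b j x = ind b j (p (b x)) := by simp [ind, hp]
        beta_reduce
        rw [h3]
        exact h2
    · simp only [map_sub, map_mul, eval_C, eval_X]
      ring
    · rw [dir_sub, dir_mul, dir_mul, dir_C, dir_C, dir_X, dir_X, eval_C, eval_C]
      intro h
      apply hx
      have h1 := hvp (b x)
      field_simp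
      linear_combination h
  obtain ⟨r, k1, k2⟩ := exists_fill hv (fun j => e j - (ind b j x + (m j + m j)))
  have hm : e = ((fun j => ind b j x) + (m + m)) + fun j => e j - (ind b j x + (m j + m j)) := by
    funext j
    have h5 := h1 j
    have h6 : ind b j x ≤ 1 := by
      unfold ind
      split_ifs <;> omega
    have h7 := he j
    simp only [Pi.add_apply]
    omega
  refine ⟨avg ρ χ (l * (q * q) * r), avg_sec hρ χ ?_, ?_, ?_⟩
  · rw [hm]
    exact MHom.mul (MHom.mul l1 (MHom.mul h2 h2)) k1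
  · rw [eval_avg_eq, map_mul, map_mul, l2, zero_mul, zero_mul]
    intro g hg
    rw [map_mul, map_mul, map_mul, h4 g hg, mul_zero, mul_zero, zero_mul]
  · rw [dir_avg_eq]
    · rw [dir_mul, dir_mul]
      simp only [map_mul, l2, zero_mul, zero_add]
      exact mul_ne_zero k2 (mul_ne_zero (mul_ne_zero h3 h3) l3)
    · intro g hg
      rw [dir_mul, dir_mul, dir_mul]
      simp only [map_mul, h4 g hg, zero_mul, mul_zero, add_zero]

end Pool.Agent.R920.WN
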